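import Mathlib
import Pool.Agent.H300.YM.Fil

/-!
# Wilson lattice gauge theory at positive temperature: which static charges are deconfined

Space is the periodic cubic lattice `(ℤ/(l+1))^D` with `D ≥ 2`, time is `ℤ/n` (the temperature is
`1 / n`), the gauge group `G` is a compact connected group with a faithful unitary representation
`τ`, and the weight is `exp (β ∑_p Re χ_τ(U_p))` with any `β > 0`. For a representation `ρ` let
`g_l(x, y) = ⟨χ_ρ(P_x) conj χ_ρ(P_y)⟩` be the two-point function of the Polyakov loops. We fix a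
sequence of volumes tending to infinity (every subsequence is allowed) and prove:

* If the two-point function of `ρ` has a nonzero mean over arbitrarily large cubes of space, then the
  Polyakov loops of every `ρ'` whose N-ality is a multiple of the N-ality of `ρ` have long range order
  in the infinite volume.
* If the centre of `G` is cyclic of prime power order, then there is a subgroup `H` of the centre such
  that the charges `ρ` with long range order are exactly those on which `H` acts trivially, and the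
  loops of the other charges are not even ordered in the mean.

The definitions of the lattice theory (`Rep`, `Site`, `corr2`, ...) are those of the library file
`PolyakovNality`, which is imported.
-/

open MeasureTheory Matrix Filter Topology

namespace Pool.Agent.Results.MP_ef2361_mp.DeconfinedNality

set_option linter.unusedSectionVars false

noncomputable section

open Pool.Agent.Results.MP_7f377f_mp.PolyakovNality (Rep Site corr2 trv right_inv)
open Pool.Agent.H300.YM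

section

variable {G : Type} [Group G] [TopologicalSpace G]

/-- Every element of the centre of `G` acts by a scalar in `ρ`; these scalars are the N-ality of
`ρ`. Irreducible representations have this property. -/
def HasNality (ρ : Rep G) : Prop := ∀ z ∈ Subgroup.center G, ∃ c : ℂ, ρ.mat z = c • 1

/-- The N-ality of `ρ'` is an integral multiple of the N-ality of `ρ`: for some integer `j` every
element of the centre acts by a scalar `c` in `ρ` and by the scalar `c ^ j` in `ρ'`. -/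
def MultipleNality (ρ ρ' : Rep G) : Prop :=
  ∃ j : ℤ, ∀ z ∈ Subgroup.center G, ∃ c : ℂ, ρ.mat z = c • 1 ∧ ρ'.mat z = c ^ j • 1

variable [MeasurableSpace G] (D n : ℕ) [NeZero n] (μ : Measure G) (τ : Rep G) (β : ℝ)
  (ρ : Rep G) (L : ℕ → ℕ)

/-- The two-point function `⟨χ_ρ(P_x) conj χ_ρ(P_y)⟩` of the Polyakov loops in the lattice
`(ℤ/(l+1))^D × ℤ/n`, at the sites with the integer coordinates `x` and `y`. -/
def two (l : ℕ) (x y : Fin D → ℤ) : ℝ :=
  corr2 (l := l + 1) n μ τ β ρ (fun a => (x a : ZMod (l + 1))) (fun a => (y a : ZMod (l + 1)))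

/-- Long range order in the infinite volume, for the volumes of sides `L i + 1`: there is a `c > 0`
such that for every `R` the correlations of all sites `x`, `y` in `[-R, R]^D` are at least `c` in
some arbitrarily late volume of the sequence. -/
def LongRangeOrder : Prop :=
  ∃ c : ℝ, 0 < c ∧ ∀ R i₀ : ℕ, ∃ i : ℕ, i₀ ≤ i ∧ ∀ x y : Fin D → ℤ,
    (∀ a, |x a| ≤ R ∧ |y a| ≤ R) → c ≤ two D n μ τ β ρ (L i) x y

/-- Long range order, with limits: there is a `c > 0` such that for all `x`, `y` the correlation is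
at least `c` in all late volumes of the sequence. -/
def UniformOrder : Prop :=
  ∃ c : ℝ, 0 < c ∧ ∀ x y : Fin D → ℤ, ∀ᶠ i in atTop, c ≤ two D n μ τ β ρ (L i) x y

/-- Order in the mean: there is a `c > 0` such that the mean of the two-point function over all pairs
of points of some cube of side `R` in some volume of the sequence is at least `c`, where the side `R`
and the index of the volume can be chosen arbitrarily large. The side `R` may be any number between
`1` and the side `L i + 1` of the volume (for which the mean is the mean square `⟨|M|²⟩` of the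
spatial average `M` of the Polyakov loops over the whole volume). -/
def OrderInMean : Prop :=
  ∃ c : ℝ, 0 < c ∧ ∀ R₀ i₀ : ℕ, ∃ i R : ℕ, i₀ ≤ i ∧ R₀ ≤ R ∧ R ≤ L i + 1 ∧
    c * (R : ℝ) ^ (2 * D) ≤ ∑ x : Fin D → Fin R, ∑ y : Fin D → Fin R,
      two D n μ τ β ρ (L i) (fun a => ((x a : ℕ) : ℤ)) (fun a => ((y a : ℕ) : ℤ))

/-- The two-point function of `ρ` has an infinite-volume limit along the sequence of volumes. -/
def HasLimit : Prop :=
  ∀ x y : Fin D → ℤ, ∃ g : ℝ, Tendsto (fun i => two D n μ τ β ρ (L i) x y) atTop (𝓝 g)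

end

section main

variable {G : Type} [Group G] [TopologicalSpace G] [IsTopologicalGroup G] [CompactSpace G]
  [T2Space G] [SecondCountableTopology G] [MeasurableSpace G] [BorelSpace G]
  (μ : Measure G) [IsProbabilityMeasure μ] [μ.IsHaarMeasure]
  [μ.IsMulRightInvariant] (τ : Rep G) (hτ : Function.Injective τ.hom) {D : ℕ}
  (m : ℕ) (β : ℝ) (ρ : Rep G) {L : ℕ → ℕ}

lemma two_eq (l : ℕ) (x y : Fin D → ℤ) : two D (m + 1) μ τ β ρ l x y =
    corr2 (l := l + 1) (m + 1) μ τ β ρ (stz (l + 1) x) (stz (l + 1) y) := rfl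

lemma two_nat (l : ℕ) (x y : Fin D → ℕ) :
    two D (m + 1) μ τ β ρ l (fun a => (x a : ℤ)) (fun a => (y a : ℤ)) =
    corr2 (l := l + 1) (m + 1) μ τ β ρ (off (l + 1) x) (off (l + 1) y) := by
  rw [two_eq, stz_cast, stz_cast]

include hτ in
lemma corr2_bdd {l : ℕ} [NeZero l] (x y : Site D l) :
    corr2 (m + 1) μ τ β ρ x y ∈ Set.Icc (-(ρ.dim : ℝ) ^ 2) ((ρ.dim : ℝ) ^ 2) := by
  have hpr := PP_prob (D := D) (l := l) μ τ hτ m β
  rw [corr2_int μ τ hτ, Set.mem_Icc, ← abs_le, ← Real.norm_eq_abs]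
  have h1 := norm_integral_le_of_norm_le_const (μ := PP D l m μ τ β)
    (f := fun ω => (phi m ρ x ω * (starRingEnd ℂ) (phi m ρ y ω)).re) (C := (ρ.dim : ℝ) ^ 2)
    (Eventually.of_forall fun ω => by
      rw [Real.norm_eq_abs]
      refine (Complex.abs_re_le_norm _).trans ?_
      rw [norm_mul, RCLike.norm_conj, sq]
      exact mul_le_mul (phi_le m ρ x ω) (phi_le m ρ y ω) (norm_nonneg _) (Nat.cast_nonneg _))
  rw [probReal_univ, mul_one] at h1
  exact h1

include hτ in
lemma ultra_limit (U : Ultrafilter ℕ) (x y : Fin D → ℕ) : ∃ a, Tendsto (fun i : ℕ =>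
    corr2 (l := L i + 1) (m + 1) μ τ β ρ (off (L i + 1) x) (off (L i + 1) y)) U (𝓝 a) := by
  obtain ⟨f, hf⟩ : ∃ f : ℕ → ℝ, f = fun i : ℕ =>
    corr2 (l := L i + 1) (m + 1) μ τ β ρ (off (L i + 1) x) (off (L i + 1) y) := ⟨_, rfl⟩
  rw [← hf]
  have h1 : Set.Icc (-(ρ.dim : ℝ) ^ 2) ((ρ.dim : ℝ) ^ 2) ∈ (U.map f : Ultrafilter ℝ) := by
    rw [Ultrafilter.mem_map]
    refine Filter.univ_mem' fun i => ?_
    rw [Set.mem_preimage, hf]
    exact corr2_bdd μ τ hτ m β ρ _ _
  obtain ⟨a, _, ha⟩ := isCompact_Icc.ultrafilter_le_nhds (U.map f) (Filter.le_principal_iff.2 h1)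
  exact ⟨a, ha⟩

/-- the cubes of the definition and the cubes of the helper files -/
lemma cube_eq (l R : ℕ) : ∑ x : Fin D → Fin R, ∑ y : Fin D → Fin R,
      two D (m + 1) μ τ β ρ l (fun a => ((x a : ℕ) : ℤ)) (fun a => ((y a : ℕ) : ℤ)) =
    ∑ x : Fin D → Fin R, ∑ y : Fin D → Fin R,
      corr2 (l := l + 1) (m + 1) μ τ β ρ (off (l + 1) (cub x)) (off (l + 1) (cub y)) :=
  Finset.sum_congr rfl fun x _ => Finset.sum_congr rfl fun y _ =>
    two_nat μ τ m β ρ l (cub x) (cub y)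

/-- order in the mean, along an ultrafilter of volumes -/
lemma ultra_mean (h : OrderInMean D (m + 1) μ τ β ρ L) :
    ∃ (U : Ultrafilter ℕ) (c : ℝ), (U : Filter ℕ) ≤ atTop ∧ 0 < c ∧ ∀ R₀ : ℕ,
      ∃ᶠ i in (U : Filter ℕ), ∃ R : ℕ, R₀ ≤ R ∧ c * (R : ℝ) ^ (2 * D) ≤
      ∑ x : Fin D → Fin R, ∑ y : Fin D → Fin R,
        corr2 (l := L i + 1) (m + 1) μ τ β ρ (off (L i + 1) (cub x)) (off (L i + 1) (cub y)) := by
  obtain ⟨c, hc, H⟩ := h
  choose i R hi hR _ hcR using fun k : ℕ => H k k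
  refine ⟨(hyperfilter ℕ).map i, c, ?_, hc, fun R₀ => ?_⟩
  · have h1 : Tendsto i atTop atTop := tendsto_atTop_mono hi tendsto_id
    exact h1.mono_left Nat.hyperfilter_le_atTop
  · refine Filter.Eventually.frequently ?_
    rw [Ultrafilter.coe_map, Filter.eventually_map]
    have h1 : ∀ᶠ k in (hyperfilter ℕ : Filter ℕ), R₀ ≤ k :=
      Nat.hyperfilter_le_atTop (eventually_ge_atTop R₀)
    filter_upwards [h1] with k hk
    refine ⟨R k, hk.trans (hR k), ?_⟩
    rw [← cube_eq]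
    exact hcR k

/-- long range order from a filter -/
lemma order_of_filter {U : Filter ℕ} [U.NeBot] (hU : U ≤ atTop)
    {c : ℝ} (hc : 0 < c) (H : ∀ x y : Fin D → ℤ, ∀ᶠ i in U,
      c ≤ corr2 (l := L i + 1) (m + 1) μ τ β ρ (stz (L i + 1) x) (stz (L i + 1) y)) :
    LongRangeOrder D (m + 1) μ τ β ρ L := by
  refine ⟨c, hc, fun R i₀ => ?_⟩
  obtain ⟨B, hB⟩ : ∃ B : Finset (Fin D → ℤ), B = Fintype.piFinset fun _ =>
    Finset.Icc (-(R : ℤ)) R := ⟨_, rfl⟩
  have h1 : ∀ᶠ i in U, ∀ x ∈ B, ∀ y ∈ B, c ≤ two D (m + 1) μ τ β ρ (L i) x y := by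
    rw [Filter.eventually_all_finset]
    intro x _
    rw [Filter.eventually_all_finset]
    intro y _
    exact H x y
  obtain ⟨i, h2, h3⟩ := (h1.and (hU (eventually_ge_atTop i₀))).exists
  refine ⟨i, h3, fun x y hxy => h2 x ?_ y ?_⟩
  · rw [hB, Fintype.mem_piFinset]
    intro a
    rw [Finset.mem_Icc, ← abs_le]
    exact (hxy a).1
  · rw [hB, Fintype.mem_piFinset]
    intro a
    rw [Finset.mem_Icc, ← abs_le]
    exact (hxy a).2

/-- long range order gives order in the mean -/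
lemma mean_of_order (hL : Tendsto L atTop atTop) (h : LongRangeOrder D (m + 1) μ τ β ρ L) :
    OrderInMean D (m + 1) μ τ β ρ L := by
  obtain ⟨c, hc, H⟩ := h
  refine ⟨c, hc, fun R₀ i₀ => ?_⟩
  obtain ⟨i₁, hi₁⟩ := (hL.eventually_ge_atTop R₀).exists_forall_of_atTop
  obtain ⟨i, hi, h1⟩ := H R₀ (max i₀ i₁)
  refine ⟨i, R₀, (le_max_left _ _).trans hi, le_rfl,
    (hi₁ i ((le_max_right _ _).trans hi)).trans (Nat.le_succ _), ?_⟩
  have h2 : ∑ _x : Fin D → Fin R₀, ∑ _y : Fin D → Fin R₀, c = c * (R₀ : ℝ) ^ (2 * D) := by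
    simp only [Finset.sum_const, Finset.card_univ, nsmul_eq_mul, Fintype.card_fun,
      Fintype.card_fin]
    push_cast
    ring
  rw [← h2]
  refine Finset.sum_le_sum fun x _ => Finset.sum_le_sum fun y _ => h1 _ _ fun a => ⟨?_, ?_⟩
  · rw [abs_of_nonneg (Int.natCast_nonneg _)]
    exact_mod_cast (x a).2.le
  · rw [abs_of_nonneg (Int.natCast_nonneg _)]
    exact_mod_cast (y a).2.le

include hτ in
/-- order in the mean is equivalent to long range order -/
lemma order_iff {β : ℝ} (hβ : 0 < β) (hD : 2 ≤ D) (hL : Tendsto L atTop atTop) :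
    OrderInMean D (m + 1) μ τ β ρ L ↔ LongRangeOrder D (m + 1) μ τ β ρ L := by
  refine ⟨fun h => ?_, mean_of_order μ τ m β ρ hL⟩
  obtain ⟨U, c, hU, hc, H⟩ := ultra_mean μ τ m β ρ h
  obtain ⟨c₂, hc₂, H₂⟩ := fil_tpow μ τ hτ m ρ hβ (by omega)
    (fun x y => ultra_limit μ τ hτ m β ρ U x y) hc H 1
  refine order_of_filter μ τ m β ρ hU hc₂ fun x y => ?_
  filter_upwards [H₂ x y] with i h2
  refine h2.trans (le_of_eq ?_)
  unfold corr2
  congr 1
  funext V
  rw [tpow_chi, tpow_chi, pow_one, pow_one]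

include hτ in
/-- (1) -/
lemma order_mul [PreconnectedSpace G] {β : ℝ} (hβ : 0 < β) (hD : 2 ≤ D)
    (hL : Tendsto L atTop atTop) {ρ ρ' : Rep G} (hρ : 1 ≤ ρ.dim) (hρ' : 1 ≤ ρ'.dim)
    (hm : MultipleNality ρ ρ') (h : OrderInMean D (m + 1) μ τ β ρ L) :
    LongRangeOrder D (m + 1) μ τ β ρ' L := by
  obtain ⟨j, hj⟩ := hm
  obtain ⟨U, c, hU, hc, H⟩ := ultra_mean μ τ m β ρ h
  obtain ⟨c₂, hc₂, H₂⟩ := fil_main μ τ hτ m hU hL hβ hD hρ hρ' hj
    (fun x y => ultra_limit μ τ hτ m β ρ U x y) hc H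
  exact order_of_filter μ τ m β ρ' hU hc₂ H₂

include hτ in
/-- (2) -/
lemma uniform_mul [PreconnectedSpace G] {β : ℝ} (hβ : 0 < β) (hD : 2 ≤ D)
    (hL : Tendsto L atTop atTop) {ρ ρ' : Rep G} (hρ : 1 ≤ ρ.dim) (hρ' : 1 ≤ ρ'.dim)
    (hm : MultipleNality ρ ρ') (hlim : HasLimit D (m + 1) μ τ β ρ L)
    (h : OrderInMean D (m + 1) μ τ β ρ L) :
    UniformOrder D (m + 1) μ τ β ρ' L := by
  obtain ⟨j, hj⟩ := hm
  obtain ⟨c, hc, H⟩ := h
  exact fil_main μ τ hτ m (U := atTop) le_rfl hL hβ hD hρ hρ' hj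
    (fun x y => by
      obtain ⟨g, hg⟩ := hlim (fun a => (x a : ℤ)) (fun a => (y a : ℤ))
      refine ⟨g, ?_⟩
      simp only [two_nat] at hg
      exact hg) hc
    (fun R₀ => by
      rw [Filter.frequently_atTop]
      intro i₀
      obtain ⟨i, R, hi, hR, _, h1⟩ := H R₀ i₀
      refine ⟨i, hi, R, hR, ?_⟩
      rw [← cube_eq]
      exact h1)

/-! ### centres of prime power order -/

lemma mat_pow {ρ : Rep G} {z : G} {c : ℂ} (h : ρ.mat z = c • 1) (k : ℕ) :
    ρ.mat (z ^ k) = c ^ k • 1 := by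
  induction k with
  | zero =>
    rw [pow_zero, pow_zero, one_smul]
    exact (rep_isUR ρ).one
  | succ k ih =>
    rw [pow_succ, (rep_isUR ρ).mul, ih, h, pow_succ, Matrix.smul_mul, Matrix.mul_smul, smul_smul,
      Matrix.one_mul]

lemma scalar_one {ρ : Rep G} (hd : 1 ≤ ρ.dim) {c : ℂ}
    (h : c • (1 : Matrix (Fin ρ.dim) (Fin ρ.dim) ℂ) = 1) : c = 1 := by
  have h2 := congrFun (congrFun h ⟨0, hd⟩) ⟨0, hd⟩
  rw [Matrix.smul_apply, Matrix.one_apply_eq, smul_eq_mul, mul_one] at h2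
  exact h2

include hτ in
lemma order_trv {β : ℝ} : LongRangeOrder D (m + 1) μ τ β (trv G) L := by
  refine order_of_filter μ τ m β (trv G) (U := atTop) le_rfl one_pos fun x y =>
    Eventually.of_forall fun i => ?_
  have hpr := PP_prob (D := D) (l := L i + 1) μ τ hτ m β
  rw [corr2_int μ τ hτ]
  have h1 : ∀ ω : Cf G D (L i + 1) m, (phi m (trv G) (stz (L i + 1) x) ω *
      (starRingEnd ℂ) (phi m (trv G) (stz (L i + 1) y) ω)).re = 1 := by
    intro ω
    have h2 : ∀ u : G, (trv G).chi u = 1 := by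
      intro u
      show trace (1 : Matrix (Fin 1) (Fin 1) ℂ) = 1
      rw [Matrix.trace_one, Fintype.card_fin, Nat.cast_one]
    unfold phi
    rw [h2, h2, map_one, mul_one, Complex.one_re]
  simp only [h1]
  rw [integral_const, probReal_univ, one_smul]

include hτ in
/-- (3) -/
lemma phases [PreconnectedSpace G] {β : ℝ} (hβ : 0 < β) (hD : 2 ≤ D)
    (hL : Tendsto L atTop atTop) {p a : ℕ} (hp : p.Prime) (hcyc : IsCyclic (Subgroup.center G))
    (hcard : Nat.card (Subgroup.center G) = p ^ a) :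
    ∃ H : Subgroup G, H ≤ Subgroup.center G ∧ ∀ ρ : Rep G, 1 ≤ ρ.dim → HasNality ρ →
      ((∀ z ∈ H, ρ.mat z = 1) → LongRangeOrder D (m + 1) μ τ β ρ L) ∧
      ((∃ z ∈ H, ρ.mat z ≠ 1) → ¬ OrderInMean D (m + 1) μ τ β ρ L) := by
  classical
  suffices hsuff : ∃ H : Subgroup G, H ≤ Subgroup.center G ∧ ∀ ρ : Rep G, 1 ≤ ρ.dim →
      HasNality ρ → (LongRangeOrder D (m + 1) μ τ β ρ L ↔ ∀ z ∈ H, ρ.mat z = 1) by
    obtain ⟨H, hH, h1⟩ := hsuff
    refine ⟨H, hH, fun ρ hd hN => ⟨(h1 ρ hd hN).2, fun h2 h3 => ?_⟩⟩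
    obtain ⟨z, hz, h4⟩ := h2
    exact h4 ((h1 ρ hd hN).1 ((order_iff μ τ hτ m ρ hβ hD hL).1 h3) z hz)
  have hfin : Finite (Subgroup.center G) := by
    apply Nat.finite_of_card_ne_zero
    rw [hcard]
    exact pow_ne_zero _ hp.ne_zero
  obtain ⟨z₀, hz₀⟩ := IsCyclic.exists_monoid_generator (α := Subgroup.center G)
  have hz1 : z₀ ^ (p ^ a) = 1 := by
    rw [← hcard]
    exact pow_card_eq_one'
  have hz1' : (z₀ : G) ^ (p ^ a) = 1 := by
    have := congrArg (Subtype.val) hz1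
    simpa using this
  -- the scalar of the generator
  have hsc : ∀ ρ : Rep G, 1 ≤ ρ.dim → HasNality ρ → ∃ c : ℂ, ρ.mat z₀ = c • 1 ∧
      ∃ b, b ≤ a ∧ orderOf c = p ^ b := by
    intro ρ hd hN
    obtain ⟨c, hc⟩ := hN z₀ z₀.2
    refine ⟨c, hc, ?_⟩
    have h1 : c ^ (p ^ a) = 1 := by
      have h2 := mat_pow hc (p ^ a)
      rw [hz1', (rep_isUR ρ).one] at h2
      exact scalar_one hd h2.symm
    have h3 := orderOf_dvd_of_pow_eq_one h1
    exact (Nat.dvd_prime_pow hp).1 h3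
  -- the comparison
  have hmul : ∀ ρ ρ' : Rep G, ∀ c c' : ℂ, ρ.mat z₀ = c • 1 → ρ'.mat z₀ = c' • 1 →
      ∀ b, orderOf c = p ^ b → c' ^ (p ^ b) = 1 → MultipleNality ρ ρ' := by
    intro ρ ρ' c c' hc hc' b hb hcb
    have h1 : IsPrimitiveRoot c (p ^ b) := by
      rw [← hb]
      exact IsPrimitiveRoot.orderOf c
    have hne : NeZero (p ^ b) := ⟨pow_ne_zero _ hp.ne_zero⟩
    obtain ⟨j, _, hj⟩ := h1.eq_pow_of_pow_eq_one hcb
    refine ⟨j, fun z hz => ?_⟩
    obtain ⟨k, hk⟩ := Submonoid.mem_powers_iff _ _ |>.1 (hz₀ ⟨z, hz⟩)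
    have hk' : (z₀ : G) ^ k = z := by
      have := congrArg (Subtype.val) hk
      simpa using this
    refine ⟨c ^ k, ?_, ?_⟩
    · rw [← hk']
      exact mat_pow hc k
    · rw [← hk', mat_pow hc' k, ← hj, zpow_natCast]
      congr 1
      ring
  -- the largest order
  obtain ⟨T, hT⟩ : ∃ T : ℕ → Prop, T = fun b => ∃ (ρ : Rep G) (c : ℂ), 1 ≤ ρ.dim ∧
    HasNality ρ ∧ ρ.mat z₀ = c • 1 ∧ orderOf c = p ^ b ∧ LongRangeOrder D (m + 1) μ τ β ρ L :=
    ⟨_, rfl⟩
  have htrv : ∀ u : G, (trv G).mat u = (1 : ℂ) • 1 := by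
    intro u
    rw [one_smul]
    rfl
  have hT0 : T 0 := by
    rw [hT]
    exact ⟨trv G, 1, le_rfl, fun z _ => ⟨1, htrv z⟩, htrv _, by simp, order_trv μ τ hτ m⟩
  obtain ⟨B, hB⟩ : ∃ B : ℕ, B = Nat.findGreatest T a := ⟨_, rfl⟩
  have hTB : T B := by
    rw [hB]
    exact Nat.findGreatest_spec (Nat.zero_le _) hT0
  have hBmax : ∀ b, b ≤ a → T b → b ≤ B := by
    intro b hb h1
    rw [hB]
    exact Nat.le_findGreatest hb h1
  refine ⟨Subgroup.zpowers ((z₀ : G) ^ (p ^ B)), ?_, ?_⟩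
  · rw [Subgroup.zpowers_le]
    exact (Subgroup.center G).pow_mem z₀.2 _
  · intro ρ hd hN
    obtain ⟨c, hc, b, hb, hcb⟩ := hsc ρ hd hN
    constructor
    · intro hord
      have h1 : b ≤ B := hBmax b hb (by
        rw [hT]
        exact ⟨ρ, c, hd, hN, hc, hcb, hord⟩)
      have h2 : c ^ (p ^ B) = 1 := by
        rw [← orderOf_dvd_iff_pow_eq_one, hcb]
        exact pow_dvd_pow p h1
      have h3 : ρ.hom ((z₀ : G) ^ (p ^ B)) = 1 := by
        apply Subtype.ext
        show ρ.mat ((z₀ : G) ^ (p ^ B)) = 1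
        rw [mat_pow hc, h2, one_smul]
      intro z hz
      obtain ⟨k, rfl⟩ := Subgroup.mem_zpowers_iff.1 hz
      show (ρ.hom (((z₀ : G) ^ (p ^ B)) ^ k)).1 = 1
      rw [map_zpow, h3, _root_.one_zpow]
      rfl
    · intro htriv
      have h1 := htriv _ (Subgroup.mem_zpowers ((z₀ : G) ^ (p ^ B)))
      rw [mat_pow hc] at h1
      have h2 := scalar_one hd h1
      have hTB' := hTB
      rw [hT] at hTB'
      obtain ⟨ρ₀, c₀, hd₀, hN₀, hc₀, hb₀, hord₀⟩ := hTB'
      exact order_mul μ τ hτ m hβ hD hL hd₀ hd (hmul ρ₀ ρ c₀ c hc₀ hc B hb₀ h2)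
        (mean_of_order μ τ m β ρ₀ hL hord₀)

end main

/-- **Deconfinement and the N-ality.** Let `G` be a compact connected group with a faithful unitary
representation `τ`, `D ≥ 2`, `n ≥ 1` and `β > 0`, and let `L` be a sequence tending to infinity; the
volumes are `(ℤ/(L i + 1))^D × ℤ/n`.
(1) If the loops of `ρ` are ordered in the mean and the N-ality of `ρ'` is a multiple of the one of
`ρ`, then the loops of `ρ'` have long range order.
(2) If moreover the two-point function of `ρ` has an infinite-volume limit, then the correlations of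
the loops of `ρ'` are bounded below by a positive constant in all late volumes.
(3) If the centre of `G` is cyclic of prime power order, then there is a subgroup `H` of the centre
such that for every `ρ` with an N-ality: if `H` acts trivially in `ρ`, then the loops of `ρ` have long
range order; otherwise they are not even ordered in the mean. -/
theorem result (G : Type) [Group G] [TopologicalSpace G] [IsTopologicalGroup G] [CompactSpace G]
    [ConnectedSpace G] [MeasurableSpace G] [BorelSpace G] (μ : Measure G) [IsProbabilityMeasure μ]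
    [μ.IsHaarMeasure] (τ : Rep G) (hτ : Function.Injective τ.hom) (D : ℕ) (hD : 2 ≤ D) (n : ℕ)
    [NeZero n] (β : ℝ) (hβ : 0 < β) (L : ℕ → ℕ) (hL : Tendsto L atTop atTop) :
    (∀ ρ ρ' : Rep G, 1 ≤ ρ.dim → 1 ≤ ρ'.dim → MultipleNality ρ ρ' →
      OrderInMean D n μ τ β ρ L → LongRangeOrder D n μ τ β ρ' L) ∧
    (∀ ρ ρ' : Rep G, 1 ≤ ρ.dim → 1 ≤ ρ'.dim → MultipleNality ρ ρ' → HasLimit D n μ τ β ρ L →
      OrderInMean D n μ τ β ρ L → UniformOrder D n μ τ β ρ' L) ∧
    (∀ p a : ℕ, p.Prime → IsCyclic (Subgroup.center G) → Nat.card (Subgroup.center G) = p ^ a →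
      ∃ H : Subgroup G, H ≤ Subgroup.center G ∧ ∀ ρ : Rep G, 1 ≤ ρ.dim → HasNality ρ →
        ((∀ z ∈ H, ρ.mat z = 1) → LongRangeOrder D n μ τ β ρ L) ∧
        ((∃ z ∈ H, ρ.mat z ≠ 1) → ¬ OrderInMean D n μ τ β ρ L)) := by
  have : T2Space G := T2Space.of_injective_continuous hτ τ.cont
  have hM : SecondCountableTopology (Matrix (Fin τ.dim) (Fin τ.dim) ℂ) :=
    inferInstanceAs (SecondCountableTopology (Fin τ.dim → Fin τ.dim → ℂ))
  have h00 : SecondCountableTopology
      (Pool.Agent.Results.MP_7f377f_mp.PolyakovNality.UU τ.dim) :=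
    TopologicalSpace.Subtype.secondCountableTopology _
  have : SecondCountableTopology G :=
    (τ.cont.isClosedEmbedding hτ).isEmbedding.secondCountableTopology
  have : μ.IsMulRightInvariant := right_inv μ
  obtain ⟨m, rfl⟩ := Nat.exists_eq_succ_of_ne_zero (NeZero.ne n)
  exact ⟨fun ρ ρ' hρ hρ' hm h => order_mul μ τ hτ m hβ hD hL hρ hρ' hm h,
    fun ρ ρ' hρ hρ' hm hlim h => uniform_mul μ τ hτ m hβ hD hL hρ hρ' hm hlim h,
    fun p a hp hcyc hcard => phases μ τ hτ m hβ hD hL hp hcyc hcard⟩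

end

end Pool.Agent.Results.MP_ef2361_mp.DeconfinedNality
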